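import Pool.Agent.H19.RFC.PS

/-!
# Module QUE of the board rfc_modules
-/

set_option autoImplicit false

open Finset

namespace Pool.Agent.H19.RFC

open Pool.Agent.H98.RFC

lemma wt_pos (R : ℕ) (J h : Site → ℝ) (T : ℝ) (Λ : Finset Site) (B : Set Site) (S : Finset Site) :
    0 < wt R J h T Λ B S := Real.exp_pos _

lemma Zf_pos (R : ℕ) (J h : Site → ℝ) (T : ℝ) (Λ : Finset Site) (B : Set Site) :
    0 < Zf R J h T Λ B :=
  Finset.sum_pos (fun S _ => wt_pos R J h T Λ B S) ⟨∅, Finset.empty_mem_powerset Λ⟩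

lemma bw_nonneg {P : Finset (Site × Site)} {q : Site × Site → ℝ} (hq : ∀ e, 0 ≤ q e ∧ q e ≤ 1)
    (ω : Finset (Site × Site)) : 0 ≤ bw P q ω :=
  mul_nonneg (Finset.prod_nonneg fun e _ => sub_nonneg.2 (hq e).2)
    (Finset.prod_nonneg fun e _ => (hq e).1)

lemma qe_mem {R : ℕ} {J : Site → ℝ} (hJ : IsCoupling R J) {T : ℝ} (hT : 0 < T) (e : Site × Site) :
    0 ≤ qe J T e ∧ qe J T e ≤ 1 := by
  refine ⟨(Real.exp_pos _).le, ?_⟩
  rw [qe, Real.exp_le_one_iff]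
  have h1 := hJ.nonneg (e.1 - e.2)
  apply div_nonpos_of_nonpos_of_nonneg _ hT.le
  linarith

lemma zero_mem_box (L : ℕ) : (0 : Site) ∈ Pool.Agent.H98.RFC.box L := by
  rw [mem_box]
  simp

lemma self_mem_bx (y : Site) (r : ℕ) : y ∈ bx y r := by
  rw [mem_bx]
  have : (0 : ℤ) ≤ r := Int.natCast_nonneg r
  refine ⟨⟨?_, ?_⟩, ?_, ?_⟩ <;> linarith

open Classical in
lemma psi_le (hPTH : T_PTH) (hGEO : T_GEO) (hFAC : T_FAC) (R r n L : ℕ)
    (hL : n * (2 * r + 2 * R) + r ≤ L) (q : Site × Site → ℝ) (hq : ∀ e, 0 ≤ q e ∧ q e ≤ 1)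
    (D : Set Site) :
    psi q (prs R (Pool.Agent.H98.RFC.box L)) D (Pool.Agent.H98.RFC.box L) 0 ≤
      ∑ a ∈ (Fintype.piFinset (fun _ : Fin n => ann R r)).filter (fun a => Sep R r a),
        ∏ j, psi q (prs R (bx (pt a j) r)) D (bx (pt a j) r) (pt a j) := by
  have e1 : ∀ a ∈ (Fintype.piFinset (fun _ : Fin n => ann R r)).filter (fun a => Sep R r a),
      ∏ j, psi q (prs R (bx (pt a j) r)) D (bx (pt a j) r) (pt a j) =
      ∑ ω ∈ (prs R (Pool.Agent.H98.RFC.box L)).powerset, bw (prs R (Pool.Agent.H98.RFC.box L)) q ω *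
        (if ∀ j, conn D (bx (pt a j) r) ω (pt a j) then 1 else 0) := by
    intro a ha
    rw [Finset.mem_filter] at ha
    obtain ⟨g1, g2, _⟩ := hGEO R r n L hL a ha.1
    exact (hFAC R q (Pool.Agent.H98.RFC.box L) (n + 1) (fun j => bx (pt a j) r) (fun j => pt a j) D
      g1 (g2 ha.2)).symm
  rw [Finset.sum_congr rfl e1, Finset.sum_comm, psi]
  apply Finset.sum_le_sum
  intro ω hω
  rw [← Finset.mul_sum]
  apply mul_le_mul_of_nonneg_left _ (bw_nonneg hq ω)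
  split_ifs with hc
  · obtain ⟨a, ha, hs, hj⟩ := hPTH R r n L hL D ω (Finset.mem_powerset.1 hω) hc
    have ha' : a ∈ (Fintype.piFinset (fun _ : Fin n => ann R r)).filter (fun a => Sep R r a) :=
      Finset.mem_filter.2 ⟨ha, hs⟩
    refine le_trans ?_ (Finset.single_le_sum (f := fun a : Fin n → Site =>
      if ∀ j, conn D (bx (pt a j) r) ω (pt a j) then (1 : ℝ) else 0) ?_ ha')
    · show (1 : ℝ) ≤ if ∀ j, conn D (bx (pt a j) r) ω (pt a j) then (1 : ℝ) else 0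
      rw [if_pos hj]
    · intro b _
      show (0 : ℝ) ≤ if ∀ j, conn D (bx (pt b j) r) ω (pt b j) then (1 : ℝ) else 0
      split_ifs <;> norm_num
  · apply Finset.sum_nonneg
    intro b _
    split_ifs <;> norm_num

theorem pf_QUE (hREP : T_REP) (hPTH : T_PTH) (hGEO : T_GEO) (hFAC : T_FAC) (hMUL : T_MUL)
    (_hNN : T_NN) : T_QUE := by
  classical
  intro R J hJ h T hT r n L hL
  set Λ := Pool.Agent.H98.RFC.box L with hΛ
  have hrep := hREP R J hJ h T hT Λ 0 (zero_mem_box L)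
  have hZ : 0 < Zf R J h T Λ (↑Λ)ᶜ * Zf R J h T Λ ∅ := mul_pos (Zf_pos _ _ _ _ _ _)
    (Zf_pos _ _ _ _ _ _)
  have key : Zf R J h T Λ (↑Λ)ᶜ * Zf R J h T Λ ∅ * inf1 R J h T Λ 0 ≤
      Zf R J h T Λ (↑Λ)ᶜ * Zf R J h T Λ ∅ *
      ∑ a ∈ (Fintype.piFinset (fun _ : Fin n => ann R r)).filter (fun a => Sep R r a),
      ∏ j, inf1 R J h T (bx (pt a j) r) (pt a j) := by
    rw [← hrep]
    calc _ ≤ ∑ S ∈ Λ.powerset, ∑ S' ∈ Λ.powerset,
          ∑ a ∈ (Fintype.piFinset (fun _ : Fin n => ann R r)).filter (fun a => Sep R r a),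
          wt R J h T Λ (↑Λ)ᶜ S * wt R J h T Λ ∅ S' *
          ∏ j, psi (qe J T) (prs R (bx (pt a j) r)) ((↑S ∪ (↑Λ)ᶜ) \ ↑S') (bx (pt a j) r)
            (pt a j) := by
          apply Finset.sum_le_sum
          intro S _
          apply Finset.sum_le_sum
          intro S' _
          rw [← Finset.mul_sum]
          apply mul_le_mul_of_nonneg_left _ (mul_pos (wt_pos _ _ _ _ _ _ _)
            (wt_pos _ _ _ _ _ _ _)).le
          exact psi_le hPTH hGEO hFAC R r n L hL (qe J T) (qe_mem hJ hT) _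
      _ = ∑ a ∈ (Fintype.piFinset (fun _ : Fin n => ann R r)).filter (fun a => Sep R r a),
          ∑ S ∈ Λ.powerset, ∑ S' ∈ Λ.powerset,
          wt R J h T Λ (↑Λ)ᶜ S * wt R J h T Λ ∅ S' *
          ∏ j, psi (qe J T) (prs R (bx (pt a j) r)) ((↑S ∪ (↑Λ)ᶜ) \ ↑S') (bx (pt a j) r)
            (pt a j) := by
          rw [Finset.sum_comm]
          have : ∀ S ∈ Λ.powerset, ∑ S' ∈ Λ.powerset,
            ∑ a ∈ (Fintype.piFinset (fun _ : Fin n => ann R r)).filter (fun a => Sep R r a),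
            wt R J h T Λ (↑Λ)ᶜ S * wt R J h T Λ ∅ S' *
            ∏ j, psi (qe J T) (prs R (bx (pt a j) r)) ((↑S ∪ (↑Λ)ᶜ) \ ↑S') (bx (pt a j) r)
              (pt a j) =
            ∑ a ∈ (Fintype.piFinset (fun _ : Fin n => ann R r)).filter (fun a => Sep R r a),
            ∑ S' ∈ Λ.powerset, wt R J h T Λ (↑Λ)ᶜ S * wt R J h T Λ ∅ S' *
            ∏ j, psi (qe J T) (prs R (bx (pt a j) r)) ((↑S ∪ (↑Λ)ᶜ) \ ↑S') (bx (pt a j) r)
              (pt a j) := fun S _ => Finset.sum_comm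
          rw [Finset.sum_comm, Finset.sum_congr rfl this, Finset.sum_comm]
      _ ≤ _ := by
          rw [Finset.mul_sum]
          apply Finset.sum_le_sum
          intro a ha
          rw [Finset.mem_filter] at ha
          obtain ⟨g1, g2, _⟩ := hGEO R r n L hL a ha.1
          exact hMUL R J hJ h T hT Λ (n + 1) (fun j => bx (pt a j) r) (fun j => pt a j) g1
            (fun i => self_mem_bx _ _) (g2 ha.2)
  exact le_of_mul_le_mul_left key hZ

end Pool.Agent.H19.RFC
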