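import Pool.Agent.H19.RFC.QUE

/-!
# Modules MEA, M01 of the board rfc_modules
-/

set_option autoImplicit false

open Finset MeasureTheory ProbabilityTheory Filter Topology

namespace Pool.Agent.H19.RFC

open Pool.Agent.H98.RFC

lemma abs_sg (A : Set Site) (x : Site) : |sg A x| = 1 := by
  classical
  unfold sg
  split_ifs <;> simp

lemma meas_en (R : ℕ) (J : Site → ℝ) (ε : ℝ) (Λ : Finset Site) (A : Set Site) :
    Measurable (fun η : Site → ℝ => en R J (fun x => ε * η x) Λ A) := by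
  unfold en
  apply Measurable.sub measurable_const
  apply Finset.measurable_sum
  intro x _
  have h2 : Measurable (fun η : Site → ℝ => η x) := measurable_pi_apply x
  exact (h2.const_mul ε).mul_const _

lemma meas_wt (R : ℕ) (J : Site → ℝ) (T ε : ℝ) (Λ : Finset Site) (B : Set Site)
    (S : Finset Site) : Measurable (fun η : Site → ℝ => wt R J (fun x => ε * η x) T Λ B S) := by
  unfold wt
  exact ((meas_en R J ε Λ _).neg.div_const T).exp

lemma meas_Zf (R : ℕ) (J : Site → ℝ) (T ε : ℝ) (Λ : Finset Site) (B : Set Site) :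
    Measurable (fun η : Site → ℝ => Zf R J (fun x => ε * η x) T Λ B) := by
  unfold Zf
  exact Finset.measurable_sum _ fun S _ => meas_wt R J T ε Λ B S

lemma meas_mg (R : ℕ) (J : Site → ℝ) (T ε : ℝ) (Λ : Finset Site) (B : Set Site) (x : Site) :
    Measurable (fun η : Site → ℝ => mg R J (fun x => ε * η x) T Λ B x) := by
  unfold mg
  exact (Finset.measurable_sum _ fun S _ => (meas_wt R J T ε Λ B S).mul_const _).div
    (meas_Zf R J T ε Λ B)

lemma meas_gs_sum (R : ℕ) (J : Site → ℝ) (ε : ℝ) (Λ : Finset Site) (B : Set Site)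
    (f : Finset Site → ℝ) :
    Measurable (fun η : Site → ℝ => ∑ S ∈ gs R J (fun x => ε * η x) Λ B, f S) := by
  classical
  have e : (fun η : Site → ℝ => ∑ S ∈ gs R J (fun x => ε * η x) Λ B, f S) =
      fun η : Site → ℝ => ∑ S ∈ Λ.powerset, if (∀ S' ∈ Λ.powerset,
        en R J (fun x => ε * η x) Λ (↑S ∪ B) ≤ en R J (fun x => ε * η x) Λ (↑S' ∪ B))
        then f S else 0 := by
    funext η
    unfold gs
    rw [Finset.sum_filter]
  rw [e]
  apply Finset.measurable_sum
  intro S _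
  apply Measurable.ite _ measurable_const measurable_const
  have : {η : Site → ℝ | ∀ S' ∈ Λ.powerset,
        en R J (fun x => ε * η x) Λ (↑S ∪ B) ≤ en R J (fun x => ε * η x) Λ (↑S' ∪ B)} =
      ⋂ S' ∈ Λ.powerset, {η : Site → ℝ | en R J (fun x => ε * η x) Λ (↑S ∪ B) ≤
        en R J (fun x => ε * η x) Λ (↑S' ∪ B)} := by
    ext η
    simp only [Set.mem_ofPred_eq, Set.mem_iInter]
  rw [this]
  exact Finset.measurableSet_biInter _ fun S' _ =>
    measurableSet_le (meas_en R J ε Λ _) (meas_en R J ε Λ _)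

lemma meas_mg0 (R : ℕ) (J : Site → ℝ) (ε : ℝ) (Λ : Finset Site) (B : Set Site) (x : Site) :
    Measurable (fun η : Site → ℝ => mg0 R J (fun x => ε * η x) Λ B x) := by
  have e : (fun η : Site → ℝ => mg0 R J (fun x => ε * η x) Λ B x) = fun η : Site → ℝ =>
      (∑ S ∈ gs R J (fun x => ε * η x) Λ B, sg (↑S ∪ B) x) /
      (∑ S ∈ gs R J (fun x => ε * η x) Λ B, (1 : ℝ)) := by
    funext η
    unfold mg0
    rw [Finset.sum_const, nsmul_eq_mul, mul_one]
  rw [e]
  exact (meas_gs_sum R J ε Λ B _).div (meas_gs_sum R J ε Λ B _)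

lemma abs_mg_le (R : ℕ) (J h : Site → ℝ) (T : ℝ) (Λ : Finset Site) (B : Set Site) (x : Site) :
    |mg R J h T Λ B x| ≤ 1 := by
  unfold mg
  rw [abs_div, abs_of_pos (Zf_pos R J h T Λ B)]
  apply div_le_one_of_le₀ _ (Zf_pos R J h T Λ B).le
  refine (Finset.abs_sum_le_sum_abs _ _).trans (le_of_eq ?_)
  apply Finset.sum_congr rfl
  intro S _
  rw [abs_mul, abs_sg, mul_one, abs_of_pos (wt_pos R J h T Λ B S)]

lemma abs_mg0_le (R : ℕ) (J h : Site → ℝ) (Λ : Finset Site) (B : Set Site) (x : Site) :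
    |mg0 R J h Λ B x| ≤ 1 := by
  unfold mg0
  rw [abs_div, Nat.abs_cast]
  apply div_le_one_of_le₀ _ (Nat.cast_nonneg _)
  refine (Finset.abs_sum_le_sum_abs _ _).trans (le_of_eq ?_)
  rw [Finset.sum_congr rfl fun S _ => abs_sg _ _, Finset.sum_const, nsmul_eq_mul, mul_one]

lemma abs_half {a b : ℝ} (ha : |a| ≤ 1) (hb : |b| ≤ 1) : |(a - b) / 2| ≤ 1 := by
  rw [abs_le] at *
  constructor <;> linarith [ha.1, ha.2, hb.1, hb.2]

theorem pf_MEA : T_MEA := by
  intro R J _ T ε _ Λ x _
  unfold infl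
  by_cases hT : T = 0
  · simp only [hT, if_true]
    refine ⟨((meas_mg0 R J ε Λ _ x).sub (meas_mg0 R J ε Λ _ x)).div_const 2, ?_⟩
    intro η
    exact abs_half (abs_mg0_le _ _ _ _ _ _) (abs_mg0_le _ _ _ _ _ _)
  · simp only [hT, if_false]
    refine ⟨((meas_mg R J T ε Λ _ x).sub (meas_mg R J T ε Λ _ x)).div_const 2, ?_⟩
    intro η
    exact abs_half (abs_mg_le _ _ _ _ _ _ _) (abs_mg_le _ _ _ _ _ _ _)

/-- the influence is nonnegative at all temperatures -/
lemma infl_nonneg (hNN : T_NN) (hLM : T_LM) {R : ℕ} {J : Site → ℝ} (hJ : IsCoupling R J)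
    (h : Site → ℝ) {T : ℝ} (hT : 0 ≤ T) {Λ : Finset Site} {x : Site} (hx : x ∈ Λ) :
    0 ≤ infl R J h T Λ x := by
  have hpos : ∀ T : ℝ, 0 < T → 0 ≤ infl R J h T Λ x := by
    intro T hT
    unfold infl
    rw [if_neg hT.ne']
    exact (hNN R J hJ h T hT Λ x hx).1
  rcases hT.lt_or_eq with h0 | h0
  · exact hpos T h0
  · rw [← h0]
    apply ge_of_tendsto (hLM R J h Λ x)
    filter_upwards [self_mem_nhdsWithin] with S hS
    exact hpos S hS

instance : IsProbabilityMeasure gam := by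
  unfold gam
  infer_instance

theorem pf_M01 (hNN : T_NN) (hLM : T_LM) (hMEA : T_MEA) : T_M01 := by
  intro R J hJ T ε hT L
  unfold mag
  constructor
  · apply integral_nonneg
    intro η
    exact infl_nonneg hNN hLM hJ _ hT (zero_mem_box L)
  · have hb := (hMEA R J hJ T ε hT (Pool.Agent.H98.RFC.box L) 0 (zero_mem_box L)).2
    have h1 : ‖∫ η, infl R J (fun x => ε * η x) T (Pool.Agent.H98.RFC.box L) 0 ∂gam‖ ≤
        1 * gam.real Set.univ := by
      apply norm_integral_le_of_norm_le_const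
      filter_upwards with η
      exact hb η
    rw [probReal_univ, mul_one] at h1
    exact (le_abs_self _).trans h1

end Pool.Agent.H19.RFC
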