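import Pool.Agent.H98.RFC.Targets

/-!
# Modules PS, HOL, DM of the board rfc_modules
-/

set_option autoImplicit false

open Finset

namespace Pool.Agent.H19.RFC

open Pool.Agent.H98.RFC

theorem pf_PS : T_PS := by
  intro α _ P Q hPQ f
  rw [← Finset.sum_product']
  apply Finset.sum_nbij' (fun S => (S ∩ P, S ∩ Q)) (fun p => p.1 ∪ p.2)
  · intro S _
    simp only [mem_product, mem_powerset]
    exact ⟨inter_subset_right, inter_subset_right⟩
  · intro p hp
    simp only [mem_product, mem_powerset] at hp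
    exact Finset.mem_powerset.2 (union_subset_union hp.1 hp.2)
  · intro S hS
    have hS' := Finset.mem_powerset.1 hS
    show (S ∩ P) ∪ (S ∩ Q) = S
    rw [← inter_union_distrib_left]
    exact inter_eq_left.2 hS'
  · intro p hp
    simp only [mem_product, mem_powerset] at hp
    have h1 : (p.1 ∪ p.2) ∩ P = p.1 := by
      ext x
      simp only [mem_inter, mem_union]
      constructor
      · rintro ⟨h | h, h'⟩
        · exact h
        · exact absurd (hp.2 h) (Finset.disjoint_left.1 hPQ h')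
      · intro h
        exact ⟨Or.inl h, hp.1 h⟩
    have h2 : (p.1 ∪ p.2) ∩ Q = p.2 := by
      ext x
      simp only [mem_inter, mem_union]
      constructor
      · rintro ⟨h | h, h'⟩
        · exact absurd h' (Finset.disjoint_left.1 hPQ (hp.1 h))
        · exact h
      · intro h
        exact ⟨Or.inr h, hp.2 h⟩
    exact Prod.ext h1 h2
  · intro S hS
    have hS' := Finset.mem_powerset.1 hS
    show f S = f ((S ∩ P) ∪ (S ∩ Q))
    rw [← inter_union_distrib_left, inter_eq_left.2 hS']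

theorem pf_HOL : T_HOL := by
  classical
  intro Λ w₁ w₂ f h1 h2 h3 h4
  set g : Finset Site → ℝ := fun S => f S - f ∅ with hg
  have hg0 : ∀ S, S ⊆ Λ → 0 ≤ g S := fun S hS => sub_nonneg.2 (h4 ∅ S (empty_subset S) hS)
  have ext0 : ∀ v : Finset Site → ℝ, (∀ S, S ⊆ Λ → 0 ≤ v S) →
      0 ≤ (fun S => if S ⊆ Λ then v S else 0) := by
    intro v hv S
    show (0 : ℝ) ≤ if S ⊆ Λ then v S else 0
    split_ifs with h
    · exact hv S h
    · exact le_rfl
  have key := Finset.four_functions_theorem (u := Λ)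
    (f₁ := fun S => if S ⊆ Λ then w₁ S * g S else 0) (f₂ := fun S => if S ⊆ Λ then w₂ S else 0)
    (f₃ := fun S => if S ⊆ Λ then w₁ S else 0) (f₄ := fun S => if S ⊆ Λ then w₂ S * g S else 0)
    (ext0 _ fun S hS => mul_nonneg (h1 S hS) (hg0 S hS)) (ext0 _ h2) (ext0 _ h1)
    (ext0 _ fun S hS => mul_nonneg (h2 S hS) (hg0 S hS)) ?_
    (𝒜 := Λ.powerset) (ℬ := Λ.powerset) subset_rfl subset_rfl
  · rw [powerset_infs_powerset_self, powerset_sups_powerset_self] at key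
    have e : ∀ v : Finset Site → ℝ, ∑ S ∈ Λ.powerset, (if S ⊆ Λ then v S else 0) =
        ∑ S ∈ Λ.powerset, v S := by
      intro v
      apply Finset.sum_congr rfl
      intro S hS
      rw [if_pos (Finset.mem_powerset.1 hS)]
    rw [e, e, e, e] at key
    have e2 : ∀ w : Finset Site → ℝ, ∑ S ∈ Λ.powerset, w S * g S =
        ∑ S ∈ Λ.powerset, w S * f S - f ∅ * ∑ S ∈ Λ.powerset, w S := by
      intro w
      rw [Finset.mul_sum, ← Finset.sum_sub_distrib]
      apply Finset.sum_congr rfl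
      intro S _
      simp only [hg]
      ring
    rw [e2, e2] at key
    linarith
  · intro S hS S' hS'
    have hi : S ∩ S' ⊆ Λ := inter_subset_left.trans hS
    have hu : S ∪ S' ⊆ Λ := union_subset hS hS'
    simp only [hS, hS', hi, hu, if_true]
    have hle : g S ≤ g (S ∪ S') := sub_le_sub_right (h4 S (S ∪ S') subset_union_left hu) _
    calc w₁ S * g S * w₂ S' = (w₁ S * w₂ S') * g S := by ring
      _ ≤ (w₁ (S ∩ S') * w₂ (S ∪ S')) * g (S ∪ S') :=
          mul_le_mul (h3 S S' hS hS') hle (hg0 S hS) (mul_nonneg (h1 _ hi) (h2 _ hu))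
      _ = w₁ (S ∩ S') * (w₂ (S ∪ S') * g (S ∪ S')) := by ring

lemma hull_mono {R : ℕ} {W Λ : Finset Site} (h : W ⊆ Λ) : hull R W ⊆ hull R Λ :=
  Finset.biUnion_subset_biUnion_of_subset_left _ h

lemma mem_bx {y z : Site} {r : ℕ} : z ∈ bx y r ↔
    (y.1 - r ≤ z.1 ∧ z.1 ≤ y.1 + r) ∧ (y.2 - r ≤ z.2 ∧ z.2 ≤ y.2 + r) := by
  simp only [bx, mem_product, mem_Icc]

lemma mem_box {z : Site} {r : ℕ} : z ∈ box r ↔
    (-(r : ℤ) ≤ z.1 ∧ z.1 ≤ r) ∧ (-(r : ℤ) ≤ z.2 ∧ z.2 ≤ r) := by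
  simp only [Pool.Agent.H98.RFC.box, mem_product, mem_Icc]

lemma subset_hull {R : ℕ} {W : Finset Site} : W ⊆ hull R W := by
  intro x hx
  refine Finset.mem_biUnion.2 ⟨x, hx, ?_⟩
  rw [mem_bx]
  have : (0 : ℤ) ≤ R := Int.natCast_nonneg R
  refine ⟨⟨?_, ?_⟩, ?_, ?_⟩ <;> linarith

lemma prs_mono {R : ℕ} {W Λ : Finset Site} (h : W ⊆ Λ) : prs R W ⊆ prs R Λ := by
  intro p hp
  simp only [prs, mem_filter, mem_product] at hp ⊢
  exact ⟨⟨hull_mono h hp.1.1, hull_mono h hp.1.2⟩, hp.2.1.imp (fun a => h a) (fun a => h a),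
    hp.2.2⟩

/-- a pair of `prs R Λ` with an end in `W` is in `prs R W` -/
lemma mem_prs_of {R : ℕ} {W : Finset Site} {p : Site × Site} (h1 : p.2 - p.1 ∈ box R)
    (h2 : p.1 ∈ W ∨ p.2 ∈ W) : p ∈ prs R W := by
  rw [mem_box] at h1
  simp only [Prod.fst_sub, Prod.snd_sub] at h1
  simp only [prs, mem_filter, mem_product]
  have h3 : p.2 - p.1 ∈ box R := by
    rw [mem_box]
    simpa only [Prod.fst_sub, Prod.snd_sub] using h1
  refine ⟨?_, h2, h3⟩
  rcases h2 with h | h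
  · refine ⟨subset_hull h, Finset.mem_biUnion.2 ⟨p.1, h, ?_⟩⟩
    rw [mem_bx]
    refine ⟨⟨?_, ?_⟩, ?_, ?_⟩ <;> linarith
  · refine ⟨Finset.mem_biUnion.2 ⟨p.2, h, ?_⟩, subset_hull h⟩
    rw [mem_bx]
    refine ⟨⟨?_, ?_⟩, ?_, ?_⟩ <;> linarith

theorem pf_DM : T_DM := by
  classical
  intro R J h W Λ hW A A' hA
  have hsg : ∀ x, x ∉ W → sg A x = sg A' x := by
    intro x hx
    have h1 : x ∈ A ↔ x ∈ A' := by
      have : x ∈ A \ (↑W : Set Site) ↔ x ∈ A' \ (↑W : Set Site) := by rw [hA]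
      constructor
      · intro h2
        exact (this.1 ⟨h2, fun h3 => hx h3⟩).1
      · intro h2
        exact (this.2 ⟨h2, fun h3 => hx h3⟩).1
    simp only [sg, h1]
  have e1 : ∀ B : Set Site, ∑ p ∈ prs R Λ, J (p.1 - p.2) * sg B p.1 * sg B p.2 =
      ∑ p ∈ prs R Λ \ prs R W, J (p.1 - p.2) * sg B p.1 * sg B p.2 +
      ∑ p ∈ prs R W, J (p.1 - p.2) * sg B p.1 * sg B p.2 :=
    fun B => (Finset.sum_sdiff (prs_mono hW)).symm
  have e2 : ∀ B : Set Site, ∑ x ∈ Λ, h x * sg B x =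
      ∑ x ∈ Λ \ W, h x * sg B x + ∑ x ∈ W, h x * sg B x :=
    fun B => (Finset.sum_sdiff hW).symm
  have e3 : ∑ p ∈ prs R Λ \ prs R W, J (p.1 - p.2) * sg A p.1 * sg A p.2 =
      ∑ p ∈ prs R Λ \ prs R W, J (p.1 - p.2) * sg A' p.1 * sg A' p.2 := by
    apply Finset.sum_congr rfl
    intro p hp
    rw [mem_sdiff] at hp
    have hb : p.2 - p.1 ∈ box R := (Finset.mem_filter.1 hp.1).2.2
    have h1 : p.1 ∉ W := fun h1 => hp.2 (mem_prs_of hb (Or.inl h1))
    have h2 : p.2 ∉ W := fun h1 => hp.2 (mem_prs_of hb (Or.inr h1))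
    rw [hsg _ h1, hsg _ h2]
  have e4 : ∑ x ∈ Λ \ W, h x * sg A x = ∑ x ∈ Λ \ W, h x * sg A' x := by
    apply Finset.sum_congr rfl
    intro x hx
    rw [hsg x (mem_sdiff.1 hx).2]
  simp only [en]
  rw [e1 A, e1 A', e2 A, e2 A', e3, e4]
  ring

end Pool.Agent.H19.RFC
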